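import Pool.Agent.NPC.Defs
import Pool.Agent.Helper6K1.BN.Defs

/-!
# Languages that are selective from lists, and subgroup languages
-/

set_option autoImplicit false

namespace Pool.Agent.Helper45.LS

open Pool.Agent.NPC
open Pool.Agent.Helper6K1.BN (prob)

/-- The string number `i` of the list `xs` is the only one that is not in `L`. -/
def Lone (L : Set (List Bool)) (xs : List (List Bool)) (i : ℕ) : Prop :=
  xs.getD i [] ∉ L ∧ ∀ j < xs.length, j ≠ i → xs.getD j [] ∈ L

/-- A language `L` is selective from lists if for a polynomial `P` a function `g`, computable in
polynomial time, maps every list of at least `P(n)` strings of length at most `n` to a position of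
the list with the following property: if all the strings at the other positions are in `L` then so
is the string at this position. -/
def ListSelective (L : Set (List Bool)) : Prop :=
  ∃ (P : Polynomial ℕ) (g : List Bool → ℕ), PolyTime (fun x => bits (g x)) ∧
    ∀ (n : ℕ) (xs : List (List Bool)), (∀ x ∈ xs, x.length ≤ n) → P.eval n ≤ xs.length →
      g (bits xs) < xs.length ∧ ¬ Lone L xs (g (bits xs))

/-- A language `L` is nondeterministically selective from lists: the position depends on a guess
`w` of polynomial length; some guess is not rejected (`none`), and the position given by a guess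
that is not rejected is right. -/
def NListSelective (L : Set (List Bool)) : Prop :=
  ∃ (P q : Polynomial ℕ) (g : List Bool → Option ℕ), PolyTime (fun x => bits (g x)) ∧
    ∀ (n : ℕ) (xs : List (List Bool)), (∀ x ∈ xs, x.length ≤ n) → P.eval n ≤ xs.length →
      (∃ w : List Bool, w.length ≤ q.eval (bits xs).length ∧ g (pairBits (bits xs) w) ≠ none) ∧
      ∀ (w : List Bool) (i : ℕ), w.length ≤ q.eval (bits xs).length →
        g (pairBits (bits xs) w) = some i → i < xs.length ∧ ¬ Lone L xs i

/-- A language `L` is selective from lists by a randomised algorithm that is a bit better than
random guessing. The position depends on `ρ(k)` random bits, where `k` is the length of the code of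
the list; the probability that the string at the chosen position is the only one of the list that
is not in `L` is at most `(1 - 1/(P(n)+1))/m` where `m` is the length of the list. (A random
position has this property with probability at most `1/m`.) -/
def RListSelective (L : Set (List Bool)) : Prop :=
  ∃ (P ρ : Polynomial ℕ) (g : List Bool → ℕ), PolyTime (fun x => bits (g x)) ∧
    ∀ (n : ℕ) (xs : List (List Bool)), (∀ x ∈ xs, x.length ≤ n) → P.eval n ≤ xs.length →
      (∀ r : List Bool, r.length = ρ.eval (bits xs).length →
        g (pairBits (bits xs) r) < xs.length) ∧
      prob (ρ.eval (bits xs).length) (fun r => Lone L xs (g (pairBits (bits xs) r))) *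
        ((xs.length : ℝ) * (((P.eval n : ℕ) : ℝ) + 1)) ≤ ((P.eval n : ℕ) : ℝ)

/-- Finite groups `G n`, of order at most `2^(p(n))`, whose elements have names: `el n w` is the
element of `G n` with the name `w`. -/
structure NamedGroups where
  /-- The groups. -/
  G : ℕ → Type
  /-- The group structures. -/
  grp : ∀ n, Group (G n)
  /-- The groups are finite. -/
  fin : ∀ n, Finite (G n)
  /-- The bound for the orders. -/
  p : Polynomial ℕ
  /-- The orders are bounded. -/
  card_le : ∀ n, Nat.card (G n) ≤ 2 ^ p.eval n
  /-- The element with a given name. -/
  el : ∀ n, List Bool → G n

attribute [instance] NamedGroups.grp NamedGroups.fin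

/-- The membership in generated subgroups is decidable in polynomial time: given `n` (in unary), the
names of some elements and one more name, decide whether the element with this name is in the
subgroup of `G n` generated by the other elements. -/
def GeneratedInP (𝒢 : NamedGroups) : Prop :=
  ∃ mem : List Bool → List Bool, PolyTime mem ∧
    ∀ (n : ℕ) (ws : List (List Bool)) (w : List Bool),
      mem (bits ((List.replicate n true, ws, w) : List Bool × List (List Bool) × List Bool)) =
        [true] ↔ 𝒢.el n w ∈ Subgroup.closure {h | ∃ v ∈ ws, 𝒢.el n v = h}

/-- `K` is the language of the strings `x` that `φ`, computable in polynomial time, maps to the name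
of an element of an arbitrary subgroup `H n` of `G n`, where `n` is the length of `x`. -/
def SubgroupLanguage (𝒢 : NamedGroups) (K : Set (List Bool)) : Prop :=
  ∃ φ : List Bool → List Bool, PolyTime φ ∧ ∃ H : ∀ n, Subgroup (𝒢.G n),
    ∀ x, x ∈ K ↔ 𝒢.el x.length (φ x) ∈ H x.length

/-- Black box groups: given `n` (in unary) and names `a`, `b` of elements of `G n`, a name of the
product and a name of the inverse of the first, both of length at most `p(n)`, are computed in
polynomial time, and the equality of the two elements is decided in polynomial time. -/
def BlackBox (𝒢 : NamedGroups) : Prop :=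
  ∃ mul inv eq : List Bool → List Bool, PolyTime mul ∧ PolyTime inv ∧ PolyTime eq ∧
    ∀ (n : ℕ) (a b : List Bool),
      𝒢.el n (mul (bits ((List.replicate n true, a, b) : List Bool × List Bool × List Bool))) =
        𝒢.el n a * 𝒢.el n b ∧
      (mul (bits ((List.replicate n true, a, b) : List Bool × List Bool × List Bool))).length ≤
        𝒢.p.eval n ∧
      𝒢.el n (inv (bits ((List.replicate n true, a) : List Bool × List Bool))) = (𝒢.el n a)⁻¹ ∧
      (inv (bits ((List.replicate n true, a) : List Bool × List Bool))).length ≤ 𝒢.p.eval n ∧
      (eq (bits ((List.replicate n true, a, b) : List Bool × List Bool × List Bool)) = [true] ↔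
        𝒢.el n a = 𝒢.el n b)

end Pool.Agent.Helper45.LS
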