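import Pool.Agent.Helper45.LS.LangS
import Pool.Agent.Helper45.LS.Defs
import Pool.Agent.Helper70K1.PP.Main

/-!
# Languages that are selective from lists and polynomial space
-/

set_option autoImplicit false

namespace Pool.Agent.Helper45.LS

open Pool.Agent.NPC
open Pool.Agent.Helper70K1.SP hiding PN
open Pool.Agent.Helper70K1.PP (PN PE PN_eval PE_eval PE_pos mm_le_PE rrP rrP_spec sz_queryP findF
  findF_spec poly_findF RB cc)
open Pool.Agent.H623R2.PS (evq InPSPACE PSPACEHard poly_replicate)
open Pool.Agent.H656R2.AK (evc QF QFwf qbf_hard)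

/-- The bound for the number of candidates. -/
noncomputable def PKS (P : Polynomial ℕ) : Polynomial ℕ :=
  (Polynomial.C 4 * PE P ^ 2 + Polynomial.C 1) ^ 4

/-- The lower bound for the modulus. -/
noncomputable def PMS (P : Polynomial ℕ) : Polynomial ℕ :=
  PKS P * PKS P * Polynomial.X + Polynomial.X + Polynomial.C 2

/-- The upper bound for the modulus. -/
noncomputable def PDS (P : Polynomial ℕ) : Polynomial ℕ :=
  Polynomial.C 2 * PMS P + Polynomial.C 1

/-- The number of candidates. -/
def nnS (M : ℕ) : ℕ := 2 ^ (rrP M * 4)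

theorem nnS_eq (M : ℕ) : nnS M = (2 ^ rrP M) ^ 4 := by
  unfold nnS
  rw [← pow_mul]

theorem le_nnS (M : ℕ) : 16 ^ rrP M ≤ nnS M := by
  unfold nnS
  rw [mul_comm, pow_mul]
  norm_num

theorem nnS_le {M : ℕ} (hM : 0 < M) : nnS M ≤ (4 * M ^ 2 + 1) ^ 4 := by
  rw [nnS_eq]
  exact Nat.pow_le_pow_left (rrP_spec hM).2.2 _

theorem nnS_pos (M : ℕ) : 0 < nnS M := by
  unfold nnS
  positivity

/-- The parameters fit. -/
theorem param_okS {M μ : ℕ} (hM : 0 < M) (h : μ ≤ M) :
    2 * (2 * nnS M * (2 * nnS M) * μ + 1 + 4) ^ 2 + 1 ≤ 2 ^ (rrP M * cc) := by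
  obtain ⟨h1, h2, _⟩ := rrP_spec hM
  have hR4 : 4 ≤ 2 ^ rrP M := by
    have h3 : 2 * M ^ 2 < 2 ^ rrP M := Nat.lt_size_self _
    have h4 : 1 ≤ M ^ 2 := Nat.one_le_pow _ _ hM
    have h5 : 2 ^ 1 < 2 ^ rrP M := by omega
    have h6 : 1 < rrP M := (Nat.pow_lt_pow_iff_right (by norm_num)).1 h5
    calc 4 = 2 ^ 2 := by norm_num
      _ ≤ 2 ^ rrP M := Nat.pow_le_pow_right (by norm_num) h6
  rw [nnS_eq, pow_mul]
  set R := 2 ^ rrP M with hR
  have hM2 : M ≤ M ^ 2 := Nat.le_self_pow (by norm_num) _
  have hμ : μ ≤ R := by omega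
  have h5 : 2 * R ^ 4 * (2 * R ^ 4) * μ + 1 + 4 ≤ R ^ 11 := by
    have h6 : 2 * R ^ 4 * (2 * R ^ 4) * μ ≤ 2 * R ^ 4 * (2 * R ^ 4) * R := Nat.mul_le_mul_left _ hμ
    have h7 : 2 * R ^ 4 * (2 * R ^ 4) * R = 4 * R ^ 9 := by ring
    have h8 : 4 * R ^ 9 ≤ R * R ^ 9 := Nat.mul_le_mul_right _ hR4
    have h9 : R ^ 11 = R * (R * R ^ 9) := by ring
    have h10 : 4 * (R * R ^ 9) ≤ R * (R * R ^ 9) := Nat.mul_le_mul_right _ hR4
    have h11 : 1 ≤ R ^ 9 := Nat.one_le_pow _ _ (by omega)
    have h12 : 4 * 1 ≤ R * R ^ 9 := Nat.mul_le_mul hR4 h11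
    omega
  have h6 : (2 * R ^ 4 * (2 * R ^ 4) * μ + 1 + 4) ^ 2 ≤ R ^ 22 := by
    calc _ ≤ (R ^ 11) ^ 2 := Nat.pow_le_pow_left h5 2
      _ = R ^ 22 := by ring
  have h7 : R ^ cc = R ^ 22 * (R * R) := by
    rw [cc]
    ring
  have h8 : 4 * 4 ≤ R * R := Nat.mul_le_mul hR4 hR4
  have h9 : 1 ≤ R ^ 22 := Nat.one_le_pow _ _ (by omega)
  have h10 : R ^ 22 * 16 ≤ R ^ 22 * (R * R) := Nat.mul_le_mul_left _ h8
  rw [h7]
  omega

/-- The candidates. -/
noncomputable def cdS (g : List Bool → ℕ) (P : Polynomial ℕ) (I : Ins) :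
    List (List ℕ) :=
  ((listS g (fun j q t i => bits ((I, j, q, findF (rrP ((PE P).eval I.m)), t, i) : QryS))
    ((PE P).eval I.m) (nnS ((PE P).eval I.m)) (rrP ((PE P).eval I.m))
    (findF (rrP ((PE P).eval I.m))) (I.m * I.m)).map (cf I.m)).filter
      fun cs => cs.all fun a => decide (a ≤ I.p)

theorem length_cdS_le (g : List Bool → ℕ) (P : Polynomial ℕ) (I : Ins) :
    (cdS g P I).length ≤ (PKS P).eval I.m := by
  unfold cdS
  refine (List.length_filter_le _ _).trans ?_
  rw [List.length_map]
  refine (length_listS (nnS_pos _) _).trans ?_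
  refine (nnS_le (PE_pos P I.m)).trans (le_of_eq ?_)
  simp [PKS]

theorem cdS_spec (g : List Bool → ℕ) (P : Polynomial ℕ) (I : Ins) :
    ∀ cs ∈ cdS g P I, cs.length = I.m ∧ ∀ a ∈ cs, a ≤ I.p := by
  intro cs hcs
  rw [cdS, List.mem_filter, List.mem_map, List.all_eq_true] at hcs
  obtain ⟨⟨V, _, rfl⟩, h⟩ := hcs
  exact ⟨cf_length _ _, fun a ha => by simpa using h a ha⟩

theorem collapse_of_selective (h : ListSelective LV) {L : Set (List Bool)}
    (hL : InPSPACE L) : InP L := by
  classical
  obtain ⟨P, gg, hgg, hpred⟩ := h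
  obtain ⟨g, hg, hgwf, hgL⟩ := qbf_hard hL
  -- the size parameter
  have hbig : NPC.Poly (fun x : List Bool => ((g x).2, (opsQ (g x).1.length 0 (g x).1,
      (g x).1))) := by
    have h1 : NPC.Poly (fun x : List Bool => (g x).1) := NPC.Poly.fst hg
    have h2 := poly_opsQ h1
    fun_prop
  obtain ⟨r1, hr1⟩ := hbig.sz_le
  obtain ⟨c0, hc0⟩ := poly_lt_two_pow (PDS P + Polynomial.C 2 * PE P ^ 2)
  set mm : List Bool → ℕ := fun x => r1.eval (4 * x.length + 1) + 10 + c0 with hmm
  have hmmU : UPoly mm := by
    refine UPoly.add (UPoly.add ?_ (UPoly.const 10)) (UPoly.const c0)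
    exact (UPoly.add (UPoly.mul (UPoly.const 4) (UPoly.length NPC.Poly.id))
      (UPoly.const 1)).eval r1
  set pp : List Bool → ℕ := fun x => findP ((PMS P).eval (mm x)) - 1 with hpp
  have hppP : NPC.Poly pp := by
    have := poly_findP (hmmU.eval (PMS P))
    fun_prop
  set WW : List Bool → List Unit := fun x => List.replicate (mm x) () with hWW
  have hWWP : NPC.Poly WW := hmmU
  have hWWl : ∀ x, (WW x).length = mm x := fun x => by rw [hWW]; simp
  set rr : List Bool → List ℕ := fun x => List.replicate (g x).1.length 0 with hrr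
  have hrrP : NPC.Poly rr := poly_replicate (UPoly.length (NPC.Poly.fst hg)) 0
  set dec : List Bool → Bool := fun x => decide (runG (pp x) ((PDS P).eval (mm x))
    (fun r => leafN (pp x) (g x).2 r) (fun o y u w => combN (pp x) o y u w)
    (fun os r i => cdS gg P (WW x, pp x, (g x).2, os, r, i)) (opsQ (g x).1.length 0 (g x).1) (rr x) %
      (pp x + 1) = 1) with hdec
  have hdecP : NPC.Poly dec := by
    have hI : NPC.Poly (fun x : List Bool × List Op × List ℕ × ℕ =>
        ((WW x.1, pp x.1, (g x.1).2, x.2.1, x.2.2.1, x.2.2.2) : Ins)) := by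
      have := hWWP.comp (f := fun x : List Bool × List Op × List ℕ × ℕ => x.1)
        (NPC.Poly.fst NPC.Poly.id)
      fun_prop
    have hmU := uPoly_m hI
    have hMU := hmU.eval (PE P)
    have hM2U : UPoly (fun x : List Bool × List Op × List ℕ × ℕ => 2 * ((PE P).eval
        (Ins.m (WW x.1, pp x.1, (g x.1).2, x.2.1, x.2.2.1, x.2.2.2))) ^ 2) := by
      have := hMU.eval (Polynomial.C 2 * Polynomial.X ^ 2)
      simpa using this
    have hrU : UPoly (fun x : List Bool × List Op × List ℕ × ℕ => rrP ((PE P).eval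
        (Ins.m (WW x.1, pp x.1, (g x.1).2, x.2.1, x.2.2.1, x.2.2.2)))) := upoly_size hM2U
    have hRB : RB (fun x : List Bool × List Op × List ℕ × ℕ => rrP ((PE P).eval
        (Ins.m (WW x.1, pp x.1, (g x.1).2, x.2.1, x.2.2.1, x.2.2.2)))) := by
      refine ⟨hrU, UPoly.of_le (poly_pow2 hrU) (UPoly.add (UPoly.mul (UPoly.const 2) hM2U)
        (UPoly.const 1)) fun x => ?_⟩
      refine (rrP_spec (PE_pos _ _)).2.2.trans (le_of_eq ?_)
      ring
    have hNU : UPoly (fun x : List Bool × List Op × List ℕ × ℕ => nnS ((PE P).eval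
        (Ins.m (WW x.1, pp x.1, (g x.1).2, x.2.1, x.2.2.1, x.2.2.2)))) := by
      exact hRB.pow 4
    have hFP := poly_findF hRB.hr hRB.h1
    have hcdS : NPC.Poly (fun x : List Bool × List Op × List ℕ × ℕ =>
        cdS gg P (WW x.1, pp x.1, (g x.1).2, x.2.1, x.2.2.1, x.2.2.2)) := by
      unfold cdS
      refine NPC.Poly.filter (p := fun (x : List Bool × List Op × List ℕ × ℕ) cs =>
        cs.all fun a => decide (a ≤ Ins.p (WW x.1, pp x.1, (g x.1).2, x.2.1, x.2.2.1, x.2.2.2)))
        (NPC.Poly.map (F := fun (x : List Bool × List Op × List ℕ × ℕ) V =>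
          cf (Ins.m (WW x.1, pp x.1, (g x.1).2, x.2.1, x.2.2.1, x.2.2.2)) V) ?_ ?_) ?_
      · refine poly_listS hgg (qb := fun (x : List Bool × List Op × List ℕ × ℕ) j q t i =>
          bits (((WW x.1, pp x.1, (g x.1).2, x.2.1, x.2.2.1, x.2.2.2), j, q, findF (rrP ((PE P).eval
        (Ins.m (WW x.1, pp x.1, (g x.1).2, x.2.1, x.2.2.1, x.2.2.2)))), t, i) : QryS)) ?_
          hMU hNU (fun x => nnS_pos _) hRB (UPoly.mul hmU hmU) hFP
        refine poly_bits ?_
        have hI' := hI.comp (f := fun x : (List Bool × List Op × List ℕ × ℕ) ×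
          ℕ × ℕ × ℕ × ℕ => x.1) (NPC.Poly.fst NPC.Poly.id)
        have hF' := hFP.comp (f := fun x : (List Bool × List Op × List ℕ × ℕ) ×
          ℕ × ℕ × ℕ × ℕ => x.1) (NPC.Poly.fst NPC.Poly.id)
        exact NPC.Poly.pair hI' (NPC.Poly.pair (by fun_prop) (NPC.Poly.pair (by fun_prop)
          (NPC.Poly.pair hF' (by fun_prop))))
      · exact poly_cf ((uPoly_m hI).comp (NPC.Poly.fst NPC.Poly.id)) (NPC.Poly.snd NPC.Poly.id)
      · have h1 := (poly_p hI).comp (f := fun x : (List Bool × List Op × List ℕ × ℕ) ×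
          List ℕ => x.1) (NPC.Poly.fst NPC.Poly.id)
        fun_prop
    have hF : NPC.Poly (fun x : List Bool => (g x).2) := NPC.Poly.snd hg
    have h1 := poly_runG (p := pp) (D := fun x => (PDS P).eval (mm x))
      (lv := fun x r => leafN (pp x) (g x).2 r) (cm := fun x o y u w => combN (pp x) o y u w)
      (cd := fun x os r i => cdS gg P (WW x, pp x, (g x).2, os, r, i)) hppP
      (hmmU.eval (PDS P)) hcdS (by
        exact poly_leafN (p := fun x : List Bool × List ℕ => pp x.1) (F := fun x => (g x.1).2)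
          (r := fun x => x.2) (by fun_prop) (by fun_prop) (by fun_prop))
      (fun x r => leafN_le _ _ _) (by
        exact poly_combN (p := fun x : List Bool × Option Bool × ℕ × ℕ × ℕ => pp x.1)
          (x := fun x => x.2.2.1) (u := fun x => x.2.2.2.1) (w := fun x => x.2.2.2.2)
          (o := fun x => x.2.1) (by fun_prop) (by fun_prop) (by fun_prop) (by fun_prop)
          (by fun_prop))
      (fun x o y u w => (combN_le _ _ _ _ _).trans (Nat.le_succ _))
      (os := fun x => opsQ (g x).1.length 0 (g x).1) (r := rr)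
      (poly_opsQ (NPC.Poly.fst hg)) hrrP
    exact NPC.Poly.dec_eq (NPC.Poly.mod h1 (by fun_prop)) (NPC.Poly.const 1)
  refine ⟨fun x => [dec x], polyTime_of_poly hdecP, fun x => ?_⟩
  -- correctness
  set m := mm x with hm
  have hsz : sz (g x).2 + sz (opsQ (g x).1.length 0 (g x).1) + sz (g x).1 + 10 + c0 ≤ m := by
    have h1 := hr1 x
    have h2 := sz_listBool_le x
    have h3 := eval_mono r1 h2
    simp only [sz_pair] at h1
    rw [hm, hmm]
    simp only
    omega
  have hn : (g x).1.length < sz (g x).1 := length_lt_sz _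
  have hpow := hc0 m (by omega)
  rw [Polynomial.eval_add] at hpow
  have hfp := findP_spec (M := (PMS P).eval m) (by simp [PMS])
  have hpx : pp x = findP ((PMS P).eval m) - 1 := rfl
  have hPM : (PMS P).eval m = (PKS P).eval m * (PKS P).eval m * m + m + 2 := by
    simp [PMS]
  have hPD : (PDS P).eval m = 2 * (PMS P).eval m + 1 := by simp [PDS]
  have hp1 : pp x + 1 = findP ((PMS P).eval m) := by omega
  have hprime : Fact (pp x + 1).Prime := ⟨by rw [hp1]; exact hfp.1⟩
  set p := pp x with hp
  have hpm : p < 2 ^ m := by omega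
  have hdegleaf : (((g x).2).map List.length).sum + 2 < m := by
    have key : ∀ F : List (List (Bool × ℕ)), (F.map List.length).sum + 1 ≤ sz F := by
      intro F
      induction F with
      | nil => simp
      | cons c F ih =>
        have := length_lt_sz c
        simp only [List.map_cons, List.sum_cons, sz_list_cons]
        omega
    have := key (g x).2
    omega
  have hrc := runG_correct (p := p) (D := (PDS P).eval m) (m := m) (n := (g x).1.length)
    (K := (PKS P).eval m) (lv := fun r => leafN p (g x).2 r)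
    (cm := fun o y u w => combN p o y u w)
    (cd := fun os r i => cdS gg P (WW x, p, (g x).2, os, r, i))
    (vf := val (leafC (g x).2)) (os0 := opsQ (g x).1.length 0 (g x).1) (by omega) (by omega)
    (by omega) (opsQ_idx _ _ _ (by omega)) (fun r _ _ => cast_leafN p (g x).2 r) ?_ ?_
    (opsQ (g x).1.length 0 (g x).1) (rr x) List.suffix_rfl (by rw [hrr]; simp) (by
      intro a ha
      rw [hrr] at ha
      simp only at ha
      rw [List.eq_of_mem_replicate ha]
      exact Nat.zero_le _)
  · -- the final equivalence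
    rw [hgL x]
    have e1 : pt p (rr x) = fun _ => (0 : ZMod (p + 1)) := by
      funext i
      unfold pt
      rw [hrr]
      simp only
      by_cases hi : i < (g x).1.length
      · rw [List.getD_eq_getElem _ _ (by simpa using hi)]
        simp
      · rw [List.getD_eq_getElem?_getD, List.getElem?_eq_none (by simpa using hi)]
        simp
    rw [e1, val_ops] at hrc
    have h2 : ∀ y : ℕ, y % (p + 1) = 1 ↔ (y : ZMod (p + 1)) = 1 := by
      intro y
      have h3 := ZMod.natCast_eq_natCast_iff' y 1 (p + 1)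
      rw [Nat.mod_eq_of_lt (a := 1) (by have := hprime.out.one_lt; omega), Nat.cast_one] at h3
      exact h3.symm
    simp only [List.cons.injEq, and_true, hdec, decide_eq_true_eq]
    rw [h2, hrc]
    unfold bit
    split_ifs with hb
    · simp [hb]
    · simp [hb]
  · -- the combinations
    rintro ⟨o, i⟩ os r u w hrl hra hi hu hw
    simp only
    rw [cast_combN, hu, hw]
    rfl
  · -- the candidates
    intro os r i hos hne hrl hra hi
    set I : Ins := (WW x, p, (g x).2, os, r, i) with hI
    have hIm : I.m = m := by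
      change (WW x).length = m
      rw [hWWl]
    have hIp : I.p = p := rfl
    have hW : WW x = List.replicate m () := rfl
    have hwf : Wf I := ⟨by rw [hIm]; exact hpm, by
      change i < r.length
      omega, fun o ho => by
      change o.2 < r.length
      rw [hrl]
      exact opsQ_idx _ _ 0 (by omega) o (hos.subset ho)⟩
    have hprime' : Fact (I.p + 1).Prime := hprime
    obtain ⟨V, hV⟩ := good_exists (I := I) (by rw [hIm]; exact hpm)
      (allDeg_suffix (R := ZMod (p + 1)) (d := (((g x).2).map List.length).sum + 2)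
        (by omega) (fun i _ => (degLE_leafC (g x).2 i).mono (by omega)) _ _ os hos i hi)
      (by rw [hIm]; exact hdegleaf)
    refine ⟨?_, ?_, cf I.m V, ?_, hV.2.2⟩
    · have h1 := length_cdS_le gg P I
      rw [hIm] at h1
      exact h1
    · intro cs hcs
      have h1 := cdS_spec gg P I cs hcs
      rw [hIm, hIp] at h1
      exact h1
    · unfold cdS
      rw [List.mem_filter, List.mem_map, List.all_eq_true]
      refine ⟨⟨V, ?_, rfl⟩, fun a ha => by simpa using hV.2.1 a ha⟩
      set M := (PE P).eval I.m with hM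
      have hM0 : 0 < M := PE_pos _ _
      obtain ⟨hr0, hr1', hr2'⟩ := rrP_spec hM0
      obtain ⟨hfl, hz⟩ := findF_spec hr0
      set fl := findF (rrP M) with hfl'
      have hMm : 2 * M ^ 2 < 2 ^ m := by
        have h1 : 2 * M ^ 2 = (Polynomial.C 2 * PE P ^ 2).eval m := by
          rw [hM, hIm]
          simp
        omega
      have hrm : rrP M ≤ m := Nat.size_le.2 hMm
      have h1 := mem_listS (g := gg) (qb := fun j q t i => bits ((I, j, q, fl, t, i) : QryS))
        (M := M) (N := nnS M) (r := rrP M) (f := fl) (V := V) (μ := I.m * I.m)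
        hr0 hfl hz (param_okS hM0 (mm_le_PE P I.m)) ?_ (le_nnS _) (nnS_pos _) ?_
        (I.m * I.m) le_rfl
      · rwa [Nat.mod_eq_of_lt hV.1] at h1
      · have h2 : M ≤ M ^ 2 := Nat.le_self_pow (by norm_num) _
        have h3 : 2 ^ rrP M ≤ 4 ^ rrP M := Nat.pow_le_pow_left (by norm_num) _
        omega
      · intro j hj q hq t ht
        have hlen : ((List.range M).map fun i' => bits ((I, j, q, fl, t, i') : QryS)).length = M := by
          simp
        obtain ⟨h2, h3⟩ := hpred (PN.eval m)
          ((List.range M).map fun i' => bits ((I, j, q, fl, t, i') : QryS)) (by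
            intro y hy
            obtain ⟨i', hi', rfl⟩ := List.mem_map.1 hy
            rw [List.mem_range] at hi'
            rw [bits_length, hI, hW]
            rw [hIm] at hj
            refine sz_queryP hpm (by omega) ((sz_suffix hos).trans (by omega)) (by omega) hra
              (by omega) hj hrm (by omega) hq hfl ht (lt_of_lt_of_le hi' ?_)
            have := Nat.le_self_pow (n := 2) (by norm_num) M
            omega) (by
            rw [hlen, hM, PE_eval, hIm]
            omega)
        rw [hlen] at h2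
        refine ⟨h2, fun hcon => h3 ?_⟩
        -- membership of the queries
        have hmem : ∀ i', bits ((I, j, q, fl, t, i') : QryS) ∈ LV ↔
            keyN (rrP M) fl t (V % 2 ^ j % q) ≠ i' := by
          intro i'
          rw [mem_LV hwf]
          have e : bitS fl t (V % 2 ^ j % q) i' = true ↔
              keyN (rrP M) fl t (V % 2 ^ j % q) ≠ i' := by
            unfold bitS
            rw [hfl]
            simp
          constructor
          · rintro ⟨V', h1, h2⟩
            rw [← e, good_unique (I := I) (by rw [hIm, hIp]; omega) hV h1]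
            exact h2
          · intro h1
            exact ⟨V, hV, e.2 h1⟩
        have hget : ∀ i' < M, ((List.range M).map fun i' =>
            bits ((I, j, q, fl, t, i') : QryS)).getD i' [] =
              bits ((I, j, q, fl, t, i') : QryS) := by
          intro i' hi'
          rw [List.getD_eq_getElem _ _ (by rw [hlen]; exact hi')]
          simp
        refine ⟨?_, ?_⟩
        · rw [hget _ h2, hmem]
          exact fun h => h hcon
        · intro i' hi' hne
          rw [hlen] at hi'
          rw [hget _ hi', hmem]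
          intro h
          exact hne (h.symm.trans hcon)

theorem selective_of_inP {L : Set (List Bool)} (h : InP L) : ListSelective L := by
  classical
  obtain ⟨V, hV, hVL⟩ := h
  -- the second position if the second string is in the language, the first one otherwise
  set g : List Bool → ℕ := fun x =>
    if V ((((unbits (List (List Bool)) x).getD []).getD 1 [])) = [true] then 1 else 0 with hg
  have hgP : NPC.Poly g := by
    have h1 : NPC.Poly (fun x : List Bool => (unbits (List (List Bool)) x).getD []) :=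
      NPC.Poly.optGetD poly_unbits (NPC.Poly.const _)
    have h3 : NPC.Poly (fun x : List Bool => V ((((unbits (List (List Bool)) x).getD []).getD 1
        []))) := (poly_of_polyTime hV).comp (NPC.Poly.getD h1 (NPC.Poly.const 1) (NPC.Poly.const _))
    exact NPC.Poly.ite (NPC.Poly.dec_eq h3 (NPC.Poly.const [true])) (NPC.Poly.const 1)
      (NPC.Poly.const 0)
  refine ⟨Polynomial.C 2, g, polyTime_of_typed (poly_bits hgP), fun n xs _ hxs => ?_⟩
  rw [Polynomial.eval_C] at hxs
  have e : g (bits xs) = if xs.getD 1 [] ∈ L then 1 else 0 := by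
    simp only [hg, unbits_bits, Option.getD_some]
    by_cases h1 : xs.getD 1 [] ∈ L
    · rw [if_pos h1, if_pos ((hVL _).1 h1)]
    · rw [if_neg h1, if_neg fun h2 => h1 ((hVL _).2 h2)]
  rw [e]
  split_ifs with h1
  · exact ⟨by omega, fun h2 => h2.1 h1⟩
  · exact ⟨by omega, fun h2 => h1 (h2.2 1 (by omega) (by norm_num))⟩

/-- Selectivity is inherited under reductions. -/
theorem ListSelective.of_reduces {K L : Set (List Bool)} (hK : ListSelective K)
    (h : Reduces L K) : ListSelective L := by
  classical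
  obtain ⟨P, g, hg, hP⟩ := hK
  obtain ⟨φ, hφ, hφL⟩ := h
  have hφP := poly_of_polyTime hφ
  obtain ⟨q, hq⟩ := hφP.sz_le
  have hφlen : ∀ x, (φ x).length ≤ q.eval (4 * x.length + 1) := by
    intro x
    have h1 := length_lt_sz (φ x)
    have h2 := hq x
    have h3 := eval_mono q (sz_listBool_le x)
    omega
  have hP' : NPC.Poly (fun x : List Bool => g (bits (((unbits (List (List Bool)) x).getD []).map
      φ))) := by
    refine poly_g hg (NPC.Poly.map (F := fun _ y => φ y) (NPC.Poly.optGetD poly_unbits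
      (NPC.Poly.const _)) ?_)
    exact hφP.comp (NPC.Poly.snd NPC.Poly.id)
  refine ⟨P.comp (q.comp (Polynomial.C 4 * Polynomial.X + Polynomial.C 1)), fun x =>
    g (bits (((unbits (List (List Bool)) x).getD []).map φ)), polyTime_of_typed (poly_bits hP'),
    fun n xs hxs hlen => ?_⟩
  have h1 : (P.comp (q.comp (Polynomial.C 4 * Polynomial.X + Polynomial.C 1))).eval n =
      P.eval (q.eval (4 * n + 1)) := by
    simp [Polynomial.eval_comp]
  rw [h1] at hlen
  obtain ⟨h2, h3⟩ := hP (q.eval (4 * n + 1)) (xs.map φ) (by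
    intro y hy
    obtain ⟨x, hx, rfl⟩ := List.mem_map.1 hy
    have h5 := hxs x hx
    exact (hφlen x).trans (eval_mono q (by omega))) (by rw [List.length_map]; exact hlen)
  simp only [unbits_bits, Option.getD_some]
  rw [List.length_map] at h2
  refine ⟨h2, fun h4 => h3 ?_⟩
  have hget : ∀ i < xs.length, (xs.map φ).getD i [] = φ (xs.getD i []) := by
    intro i hi
    rw [List.getD_eq_getElem _ _ (by rw [List.length_map]; exact hi),
      List.getD_eq_getElem _ _ hi, List.getElem_map]
  refine ⟨?_, ?_⟩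
  · rw [hget _ h2]
    exact fun h => h4.1 ((hφL _).2 h)
  · intro i hi hne
    rw [List.length_map] at hi
    rw [hget _ hi]
    exact (hφL _).1 (h4.2 i hi hne)

theorem selective_iff : (∃ K : Set (List Bool), PSPACEHard K ∧ ListSelective K) ↔
    ∀ L : Set (List Bool), InPSPACE L → InP L := by
  constructor
  · rintro ⟨K, hK, hp⟩ L hL
    exact collapse_of_selective (hp.of_reduces (hK LV inPSPACE_LV)) hL
  · intro h
    refine ⟨{[true]}, fun L hL => ?_, selective_of_inP ⟨fun x => x,
      polyTime_of_typed NPC.Poly.id, fun x => Iff.rfl⟩⟩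
    obtain ⟨V, hV, hVL⟩ := h L hL
    exact ⟨V, hV, fun x => hVL x⟩

end Pool.Agent.Helper45.LS
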