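import Pool.Agent.Helper45.LS.Defs

/-!
# Selection of small subconjunctions
-/

set_option autoImplicit false

namespace Pool.Agent.Helper45.LS

open Pool.Agent.NPC

/-- A language `L` has small bases if for a polynomial `P` a function `s`, computable in polynomial
time, chooses from every list of strings of length at most `n` at most `P(n)` strings with the
following property: if all the chosen strings are in `L` then all the strings of the list are. -/
def SmallBases (L : Set (List Bool)) : Prop :=
  ∃ (P : Polynomial ℕ) (s : List Bool → List (List Bool)), PolyTime (fun x => bits (s x)) ∧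
    ∀ (n : ℕ) (xs : List (List Bool)), (∀ x ∈ xs, x.length ≤ n) →
      (s (bits xs)).length ≤ P.eval n ∧ (∀ y ∈ s (bits xs), y ∈ xs) ∧
        ((∀ y ∈ s (bits xs), y ∈ L) → ∀ x ∈ xs, x ∈ L)

/-- Conjunctive truth-table reductions in polynomial time: `x` is in `L` if and only if all the
strings of the list `f x` are in `K`. -/
def ConjReduces (L K : Set (List Bool)) : Prop :=
  ∃ f : List Bool → List (List Bool), PolyTime (fun x => bits (f x)) ∧
    ∀ x, x ∈ L ↔ ∀ y ∈ f x, y ∈ K

/-- The names, together with `n` in unary, of the elements of the subgroups `H n`. -/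
def subgroupSet (𝒢 : NamedGroups) (H : ∀ n, Subgroup (𝒢.G n)) : Set (List Bool) :=
  {x | ∃ (n : ℕ) (w : List Bool), x = bits ((List.replicate n true, w) : List Bool × List Bool) ∧
    𝒢.el n w ∈ H n}

end Pool.Agent.Helper45.LS
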