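import Pool.Agent.Helper45.LS.PolyS
import Pool.Agent.Helper70K1.PP.LangP

/-!
# The language of the hash values of the round polynomials
-/

set_option autoImplicit false

namespace Pool.Agent.Helper45.LS

open Pool.Agent.NPC
open Pool.Agent.Helper70K1.SP
open Pool.Agent.Helper70K1.PP (cc)
open Pool.Agent.H623R2.PS (evq evq_exists evq_and InPSPACE inPSPACE_of_evq poly_replicate)

/-- Queries: an instance, a number of bits, a modulus, a field, a hash function and a number. -/
abbrev QryS := Ins × ℕ × ℕ × List Bool × ℕ × ℕ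

/-- The number of the hash values of `u` is not `i`. -/
def bitS (f : List Bool) (t u i : ℕ) : Bool := !decide (keyN f.length f t u = i)

/-- The predicate of a query. -/
def rhoS (Q : QryS) (V : ℕ) : Bool :=
  bitS Q.2.2.2.1 Q.2.2.2.2.1 (V % 2 ^ (min Q.2.1 (Q.1.m * Q.1.m)) % Q.2.2.1) Q.2.2.2.2.2

/-- The quantifiers for a query. -/
def qsS (o : Option QryS) : List Bool := o.elim [] fun Q => qsI Q.1

/-- The check for a query. -/
def chkS (o : Option QryS) (u : List Bool) : Bool := o.elim false fun Q => chkG Q.1 (rhoS Q) u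

/-- The language of the statements that the number of the hash values is not `i`. -/
def LV : Set (List Bool) := {x | evq (qsS (unbits QryS x)) (chkS (unbits QryS x)) = true}

theorem mem_LV {I : Ins} (h : Wf I) (j q : ℕ) (f : List Bool) (t i : ℕ) :
    bits ((I, j, q, f, t, i) : QryS) ∈ LV ↔
      ∃ V, Good I V ∧ bitS f t (V % 2 ^ j % q) i = true := by
  have h1 : ∀ V, Good I V → rhoS (I, j, q, f, t, i) V = bitS f t (V % 2 ^ j % q) i := by
    intro V hV
    unfold rhoS
    simp only
    rcases le_total j (I.m * I.m) with h2 | h2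
    · rw [min_eq_left h2]
    · rw [min_eq_right h2, Nat.mod_eq_of_lt hV.1, Nat.mod_eq_of_lt (lt_of_lt_of_le hV.1
        (Nat.pow_le_pow_right (by norm_num) h2))]
  have h2 : (∃ V, Good I V ∧ bitS f t (V % 2 ^ j % q) i = true) ↔
      ∃ V, Good I V ∧ rhoS (I, j, q, f, t, i) V = true := by
    constructor
    · rintro ⟨V, h3, h4⟩
      exact ⟨V, h3, by rw [h1 V h3]; exact h4⟩
    · rintro ⟨V, h3, h4⟩
      exact ⟨V, h3, by rw [← h1 V h3]; exact h4⟩
  rw [h2, ← chkG_iff h]
  change evq (qsS (unbits QryS (bits ((I, j, q, f, t, i) : QryS)))) (chkS (unbits QryS (bits ((I,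
    j, q, f, t, i) : QryS)))) = true ↔ _
  rw [unbits_bits]
  rfl

/-! ### Complexity -/

variable {α : Type} [TEnc α]

theorem poly_rhoS : NPC.Poly (fun x : QryS × ℕ => rhoS x.1 x.2) := by
  unfold rhoS bitS
  have h1 : UPoly (fun x : QryS × ℕ => x.1.1.m) := uPoly_m (by fun_prop)
  have h2 : UPoly (fun x : QryS × ℕ => min x.1.2.1 (x.1.1.m * x.1.1.m)) :=
    UPoly.of_le (n := fun x : QryS × ℕ => x.1.1.m * x.1.1.m) (by fun_prop) (UPoly.mul h1 h1)
      fun x => min_le_right _ _
  have h3 := poly_pow2 h2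
  have hf : NPC.Poly (fun x : QryS × ℕ => x.1.2.2.2.1) := by fun_prop
  have hr : UPoly (fun x : QryS × ℕ => x.1.2.2.2.1.length) := UPoly.length hf
  have hu : NPC.Poly (fun x : QryS × ℕ =>
      x.2 % 2 ^ (min x.1.2.1 (x.1.1.m * x.1.1.m)) % x.1.2.2.1) := by fun_prop
  exact NPC.Poly.not (NPC.Poly.dec_eq (poly_keyN hr hf (by fun_prop) hu) (by fun_prop))

theorem poly_qsS : NPC.Poly qsS := by
  unfold qsS
  refine NPC.Poly.optElim (g := fun _ => []) (h := fun _ (Q : QryS) => qsI Q.1) NPC.Poly.id
    (NPC.Poly.const _) ?_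
  exact poly_qsI (I := fun x : Option QryS × QryS => x.2.1) (by fun_prop)

theorem poly_chkS : NPC.Poly (fun x : Option QryS × List Bool => chkS x.1 x.2) := by
  unfold chkS
  refine NPC.Poly.optElim (o := fun x : Option QryS × List Bool => x.1) (g := fun _ => false)
    (h := fun x (Q : QryS) => chkG Q.1 (rhoS Q) x.2) (by fun_prop) (NPC.Poly.const _) ?_
  exact poly_chkG (I := fun x : (Option QryS × List Bool) × QryS => x.2.1)
    (ρ := fun x => rhoS x.2) (u := fun x => x.1.2) (by fun_prop)
    (poly_rhoS.comp (f := fun x : ((Option QryS × List Bool) × QryS) × ℕ => (x.1.2, x.2))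
      (by fun_prop)) (by fun_prop)

/-- The language is in polynomial space. -/
theorem inPSPACE_LV : InPSPACE LV := by
  refine inPSPACE_of_evq (init := unbits QryS) poly_unbits (qs := fun x => qsS (unbits QryS x))
    ?_ (φ := chkS) poly_chkS fun x => Iff.rfl
  exact poly_qsS.comp poly_unbits

end Pool.Agent.Helper45.LS
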