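import Pool.Agent.Helper45.LS.Prune
import Pool.Agent.Helper70K1.PP.PolyP

/-!
# Complexity of the pruning algorithm with a selection function
-/

set_option autoImplicit false

namespace Pool.Agent.Helper45.LS

open Pool.Agent.NPC
open Pool.Agent.Helper70K1.SP (tb tb_eq hsh poly_tb upoly_bound poly_hsh poly_pow2 poly_of_polyTime
  sz_lt_two_pow poly_bits)
open Pool.Agent.Helper70K1.PP (hh cc RB poly_hh findT poly_findT poly_take)

variable {α : Type} [TEnc α]

variable {g : List Bool → ℕ}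

theorem poly_g (hg : PolyTime fun x => bits (g x)) {β : Type} [TEnc β] {Q : α → β}
    (hQ : NPC.Poly Q) : NPC.Poly (fun x => g (bits (Q x))) := by
  have h1 := (poly_of_polyTime hg).comp (poly_bits hQ)
  have h2 : NPC.Poly (fun x => (unbits ℕ (bits (g (bits (Q x))))).getD 0) :=
    NPC.Poly.optGetD (poly_unbits.comp h1) (NPC.Poly.const _)
  refine h2.congr fun x => ?_
  rw [unbits_bits]
  rfl

theorem poly_keyN {r : α → ℕ} (hr : UPoly r) {f : α → List Bool} (hf : NPC.Poly f)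
    {t u : α → ℕ} (ht : NPC.Poly t) (hu : NPC.Poly u) :
    NPC.Poly (fun x => keyN (r x) (f x) (t x) (u x)) := by
  unfold keyN
  exact NPC.Poly.valBits (NPC.Poly.append (poly_hh cc hr hf ht (NPC.Poly.const 0) hu)
    (poly_hh cc hr hf ht (NPC.Poly.const cc) hu))

theorem poly_prS (hg : PolyTime fun x => bits (g x)) {qb : α → ℕ → ℕ → ℕ → ℕ → List Bool}
    (hqb : NPC.Poly (fun x : α × ℕ × ℕ × ℕ × ℕ => qb x.1 x.2.1 x.2.2.1 x.2.2.2.1 x.2.2.2.2))
    {M N r : α → ℕ} (hM : UPoly M) (hN : UPoly N) (hr : RB r) {f : α → List Bool}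
    (hf : NPC.Poly f) {j : α → ℕ} (hj : NPC.Poly j) {A : α → List ℕ} (hA : NPC.Poly A) :
    NPC.Poly (fun x => prS g (qb x) (M x) (N x) (r x) (f x) (j x) (A x)) := by
  unfold prS
  have hq : NPC.Poly (fun x => hsh (r x * cc) (A x)) := poly_hsh (hr.pow cc) hA
  have hus : NPC.Poly (fun x => (A x).map fun v => v % hsh (r x * cc) (A x)) :=
    NPC.Poly.map (F := fun x v => v % hsh (r x * cc) (A x)) hA (by
      exact NPC.Poly.mod (NPC.Poly.snd NPC.Poly.id) (hq.comp (NPC.Poly.fst NPC.Poly.id)))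
  have ht := poly_findT cc hr hf hus
  have hQ : NPC.Poly (fun x => (List.range (M x)).map (qb x (j x) (hsh (r x * cc) (A x))
      (findT (r x) (f x) cc ((A x).map fun v => v % hsh (r x * cc) (A x))))) := by
    refine NPC.Poly.map (F := fun x i => qb x (j x) (hsh (r x * cc) (A x))
      (findT (r x) (f x) cc ((A x).map fun v => v % hsh (r x * cc) (A x))) i) hM.range ?_
    have hq' := hq.comp (f := fun x : α × ℕ => x.1) (by fun_prop)
    have ht' := ht.comp (f := fun x : α × ℕ => x.1) (by fun_prop)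
    exact hqb.comp (f := fun x : α × ℕ => (x.1, j x.1, hsh (r x.1 * cc) (A x.1),
      findT (r x.1) (f x.1) cc ((A x.1).map fun v => v % hsh (r x.1 * cc) (A x.1)), x.2))
      (by fun_prop)
  have hE := poly_g hg hQ
  have hN' := hN.toPoly
  refine NPC.Poly.ite (by fun_prop) hA ?_
  refine NPC.Poly.filter (p := fun x v => !decide (keyN (r x) (f x) (findT (r x) (f x) cc
    ((A x).map fun v => v % hsh (r x * cc) (A x))) (v % hsh (r x * cc) (A x)) =
      g (bits ((List.range (M x)).map (qb x (j x) (hsh (r x * cc) (A x))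
        (findT (r x) (f x) cc ((A x).map fun v => v % hsh (r x * cc) (A x)))))))) hA ?_
  have hE' := hE.comp (f := fun x : α × ℕ => x.1) (by fun_prop)
  have hw : NPC.Poly (fun x : α × ℕ => keyN (r x.1) (f x.1) (findT (r x.1) (f x.1) cc
      ((A x.1).map fun v => v % hsh (r x.1 * cc) (A x.1))) (x.2 % hsh (r x.1 * cc) (A x.1))) :=
    poly_keyN (hr.hr.comp (NPC.Poly.fst NPC.Poly.id))
      (hf.comp (NPC.Poly.fst NPC.Poly.id)) (ht.comp (NPC.Poly.fst NPC.Poly.id))
      (NPC.Poly.mod (NPC.Poly.snd NPC.Poly.id) (hq.comp (NPC.Poly.fst NPC.Poly.id)))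
  exact NPC.Poly.not (NPC.Poly.dec_eq hw hE')

/-- One more bit, with a bounded number of bits. -/
def stepS' (g : List Bool → ℕ) (qb : ℕ → ℕ → ℕ → ℕ → List Bool)
    (M N r : ℕ) (f : List Bool) (μ j : ℕ) (A : List ℕ) : List ℕ :=
  ((prS g qb M N r f (j + 1))^[2 * N] (A ++ A.map fun v => v + 2 ^ (min j μ))).take N

theorem foldl_stepS' (g : List Bool → ℕ) (qb : ℕ → ℕ → ℕ → ℕ → List Bool)
    (M N r : ℕ) (f : List Bool) (μ : ℕ) :
    ∀ n ≤ μ, (List.range n).foldl (fun A j => stepS' g qb M N r f μ j A) [0] =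
      listS g qb M N r f n
  | 0, _ => rfl
  | n + 1, h => by
    rw [List.range_succ, List.foldl_append, foldl_stepS' g qb M N r f μ n (by omega), listS]
    simp only [List.foldl_cons, List.foldl_nil, stepS', stepS]
    rw [min_eq_left (by omega)]

theorem sz_iter_le (j : ℕ) {qb : ℕ → ℕ → ℕ → ℕ → List Bool} {M N r : ℕ} {f : List Bool}
    (A : List ℕ) (n : ℕ) : sz ((prS g qb M N r f j)^[n] A) ≤ sz A := by
  have key : ∀ {l l' : List ℕ}, l.Sublist l' → sz l ≤ sz l' := by
    intro l l' h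
    induction h with
    | slnil => exact le_rfl
    | cons a _ ih => rw [sz_list_cons]; omega
    | cons_cons a _ ih => rw [sz_list_cons, sz_list_cons]; omega
  exact key (prS_iter_sublist _ _ _)

theorem poly_stepS' (hg : PolyTime fun x => bits (g x)) {qb : α → ℕ → ℕ → ℕ → ℕ → List Bool}
    (hqb : NPC.Poly (fun x : α × ℕ × ℕ × ℕ × ℕ => qb x.1 x.2.1 x.2.2.1 x.2.2.2.1 x.2.2.2.2))
    {M N r μ : α → ℕ} (hM : UPoly M) (hN : UPoly N) (hr : RB r) (hμ : UPoly μ)
    {f : α → List Bool} (hf : NPC.Poly f) {j : α → ℕ} (hj : NPC.Poly j) {A : α → List ℕ}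
    (hA : NPC.Poly A) :
    NPC.Poly (fun x => stepS' g (qb x) (M x) (N x) (r x) (f x) (μ x) (j x) (A x)) := by
  have h1 : UPoly (fun x => min (j x) (μ x)) :=
    UPoly.of_le (by
      have := hμ.toPoly
      fun_prop) hμ fun x => min_le_right _ _
  have h2 := poly_pow2 h1
  have h3 : NPC.Poly (fun x => A x ++ (A x).map fun v => v + 2 ^ (min (j x) (μ x))) := by
    refine NPC.Poly.append hA (NPC.Poly.map (F := fun x v => v + 2 ^ (min (j x) (μ x))) hA ?_)
    exact NPC.Poly.add (NPC.Poly.snd NPC.Poly.id) (h2.comp (NPC.Poly.fst NPC.Poly.id))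
  obtain ⟨q, hq⟩ := h3.sz_le
  have h4 : NPC.Poly (fun x => (prS g (qb x) (M x) (N x) (r x) (f x) (j x + 1))^[
      (List.replicate (2 * N x) ()).length]
      (A x ++ (A x).map fun v => v + 2 ^ (min (j x) (μ x)))) := by
    refine NPC.Poly.iterLen (l := fun x => List.replicate (2 * N x) ())
      (F := fun x B => prS g (qb x) (M x) (N x) (r x) (f x) (j x + 1) B)
      (UPoly.mul (UPoly.const 2) hN) h3 ?_ q ?_
    · have hj' : NPC.Poly (fun x : α × List ℕ => j x.1 + 1) := by fun_prop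
      exact poly_prS hg (qb := fun x : α × List ℕ => qb x.1) (hqb.comp
        (f := fun x : (α × List ℕ) × ℕ × ℕ × ℕ × ℕ => (x.1.1, x.2)) (by fun_prop))
        (hM.comp (NPC.Poly.fst NPC.Poly.id)) (hN.comp (NPC.Poly.fst NPC.Poly.id))
        (hr.comp (NPC.Poly.fst NPC.Poly.id)) (hf.comp (NPC.Poly.fst NPC.Poly.id)) hj'
        (NPC.Poly.snd NPC.Poly.id)
    · intro x k _
      exact (sz_iter_le _ _ _).trans (hq x)
  unfold stepS'
  refine poly_take ?_ hN.toPoly
  simpa using h4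

theorem poly_listS (hg : PolyTime fun x => bits (g x)) {qb : α → ℕ → ℕ → ℕ → ℕ → List Bool}
    (hqb : NPC.Poly (fun x : α × ℕ × ℕ × ℕ × ℕ => qb x.1 x.2.1 x.2.2.1 x.2.2.2.1 x.2.2.2.2))
    {M N r μ : α → ℕ} (hM : UPoly M) (hN : UPoly N) (hN0 : ∀ x, 0 < N x) (hr : RB r)
    (hμ : UPoly μ) {f : α → List Bool} (hf : NPC.Poly f) :
    NPC.Poly (fun x => listS g (qb x) (M x) (N x) (r x) (f x) (μ x)) := by
  obtain ⟨r1, hr1⟩ := upoly_bound hμ
  obtain ⟨r2, hr2⟩ := upoly_bound hN
  have h1 : NPC.Poly (fun x => (List.range (μ x)).foldl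
      (fun A j => stepS' g (qb x) (M x) (N x) (r x) (f x) (μ x) j A) [0]) := by
    refine NPC.Poly.foldl (s := fun _ => [0]) (F := fun x A j => stepS' g (qb x) (M x)
      (N x) (r x) (f x) (μ x) j A) hμ.range (NPC.Poly.const _) ?_
      (r2 * (Polynomial.C 4 * r1 + Polynomial.C 2) + Polynomial.C 1) ?_
    · exact poly_stepS' hg (qb := fun x : α × List ℕ × ℕ => qb x.1) (hqb.comp
        (f := fun x : (α × List ℕ × ℕ) × ℕ × ℕ × ℕ × ℕ => (x.1.1, x.2)) (by fun_prop))
        (hM.comp (NPC.Poly.fst NPC.Poly.id)) (hN.comp (NPC.Poly.fst NPC.Poly.id))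
        (hr.comp (NPC.Poly.fst NPC.Poly.id)) (hμ.comp (NPC.Poly.fst NPC.Poly.id))
        (hf.comp (NPC.Poly.fst NPC.Poly.id)) (by fun_prop) (by fun_prop)
    · intro x k hk'
      rw [List.length_range] at hk'
      rw [List.take_range, min_eq_left hk', foldl_stepS' g (qb x) _ _ _ _ _ k hk']
      have h2 : (listS g (qb x) (M x) (N x) (r x) (f x) k).length ≤ N x :=
        length_listS (hN0 x) k
      have h3 : ∀ v ∈ listS g (qb x) (M x) (N x) (r x) (f x) k, sz v ≤ 4 * μ x + 1 :=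
        fun v hv => sz_lt_two_pow (lt_of_lt_of_le (listS_lt k v hv)
          (Nat.pow_le_pow_right (by norm_num) hk'))
      refine (sz_le_length_mul _ _ h3).trans ?_
      simp only [Polynomial.eval_add, Polynomial.eval_mul, Polynomial.eval_C]
      refine Nat.add_le_add_right (Nat.mul_le_mul (h2.trans (hr2 x)) ?_) _
      have := hr1 x
      omega
  exact h1.congr fun x => foldl_stepS' g (qb x) _ _ _ _ _ _ le_rfl

end Pool.Agent.Helper45.LS
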