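import Pool.Agent.Helper70K1.PP.Prune
import Pool.Agent.H579R2.Spt.VV

/-!
# Pruning lists of candidates with a selection function
-/

set_option autoImplicit false

namespace Pool.Agent.Helper45.LS

open Pool.Agent.NPC
open Pool.Agent.Helper70K1.SP (tb tb_eq hsh hsh_spec nodup_ext exists_valB)
open Pool.Agent.Helper70K1.PP (hh hh_length key coll collL collL_eq findT findT_lt findT_spec NoZD cc)
open Pool.Agent.H579R2.Spt (BL mem_BL card_BL)

/-- The number of the pair of hash values. -/
def keyN (r : ℕ) (f : List Bool) (t u : ℕ) : ℕ :=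
  valB (hh r f cc t 0 u ++ hh r f cc t cc u)

theorem coll_eq_sum (r : ℕ) (f : List Bool) (c t : ℕ) (V : Finset ℕ) :
    coll r f c t V = ∑ d ∈ V.image (key r f c t), (V.filter fun v => key r f c t v = d).card ^ 2 := by
  classical
  unfold coll
  rw [Finset.card_eq_sum_card_fiberwise (f := fun p : ℕ × ℕ => key r f c t p.1)
    (t := V.image (key r f c t)) fun p hp => by
      simp only [Finset.coe_filter, Finset.mem_product, Set.mem_ofPred_eq] at hp
      exact Finset.mem_coe.2 (Finset.mem_image_of_mem _ hp.1.1)]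
  refine Finset.sum_congr rfl fun d _ => ?_
  rw [sq, ← Finset.card_product]
  congr 1
  ext p
  simp only [Finset.mem_filter, Finset.mem_product]
  constructor
  · rintro ⟨⟨⟨h5, h6⟩, h7⟩, h8⟩
    exact ⟨⟨h5, h8⟩, h6, by rw [← h7]; exact h8⟩
  · rintro ⟨⟨h5, h6⟩, h7, h8⟩
    exact ⟨⟨⟨h5, h7⟩, by rw [h6, h8]⟩, h6⟩

/-- Every pair is hit. -/
theorem hit {r c t : ℕ} (hc : 0 < c) {f : List Bool} {V : Finset ℕ}
    (ht : 4 ^ r * coll r f c t V ≤ 4 ^ r * V.card + V.card ^ 2) (hV : 16 ^ r < V.card)
    {a b : List Bool} (ha : a.length = r) (hb : b.length = r) :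
    ∃ u ∈ V, key r f c t u = (a, b) := by
  classical
  by_contra hcon
  push Not at hcon
  set K := V.image (key r f c t) with hK
  have h1 : K ⊆ ((BL r) ×ˢ (BL r)).erase (a, b) := by
    intro z hz
    rw [hK, Finset.mem_image] at hz
    obtain ⟨u, hu, rfl⟩ := hz
    rw [Finset.mem_erase, Finset.mem_product, mem_BL, mem_BL]
    exact ⟨hcon u hu, hh_length hc _ _ _ _, hh_length hc _ _ _ _⟩
  have hBL : (BL r).card = 2 ^ r := by
    have := card_BL r
    exact_mod_cast this
  have h4 : (4 : ℕ) ^ r = 2 ^ r * 2 ^ r := by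
    rw [← mul_pow]
    norm_num
  have h2 : K.card + 1 ≤ 4 ^ r := by
    have h3 := Finset.card_le_card h1
    rw [Finset.card_erase_of_mem (by
      rw [Finset.mem_product, mem_BL, mem_BL]
      exact ⟨ha, hb⟩), Finset.card_product, hBL, ← h4] at h3
    have h5 : 0 < 4 ^ r := by positivity
    omega
  have h5 : V.card ^ 2 ≤ K.card * coll r f c t V := by
    rw [coll_eq_sum, ← hK]
    have h6 : V.card = ∑ d ∈ K, (V.filter fun v => key r f c t v = d).card :=
      Finset.card_eq_sum_card_fiberwise fun v hv =>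
        Finset.mem_coe.2 (Finset.mem_image_of_mem _ (Finset.mem_coe.1 hv))
    calc V.card ^ 2 = (∑ d ∈ K, (V.filter fun v => key r f c t v = d).card) ^ 2 := by rw [← h6]
      _ ≤ _ := sq_sum_le_card_mul_sum_sq
  have h16 : (16 : ℕ) ^ r = 4 ^ r * 4 ^ r := by
    rw [← mul_pow]
    norm_num
  set Q := 4 ^ r with hQ
  set n := V.card with hn
  set k := K.card with hk
  -- Q n² ≤ k Q coll ≤ k (Q n + n²)
  have h6 : Q * n ^ 2 ≤ k * (Q * n + n ^ 2) := by
    calc Q * n ^ 2 ≤ Q * (k * coll r f c t V) := Nat.mul_le_mul_left _ h5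
      _ = k * (Q * coll r f c t V) := by ring
      _ ≤ _ := Nat.mul_le_mul_left _ ht
  have h7 : n ^ 2 + k * n ^ 2 ≤ Q * n ^ 2 := by
    have : (k + 1) * n ^ 2 ≤ Q * n ^ 2 := Nat.mul_le_mul_right _ h2
    linarith
  have h8 : n * n ≤ (k * Q) * n := by nlinarith
  have h9 : 0 < n := by omega
  have h10 : n ≤ k * Q := Nat.le_of_mul_le_mul_right h8 h9
  have h11 : k * Q ≤ Q * Q := Nat.mul_le_mul_right _ (by omega)
  omega

/-- One pruning step. -/
def prS (g : List Bool → ℕ) (qb : ℕ → ℕ → ℕ → ℕ → List Bool)
    (M N r : ℕ) (f : List Bool) (j : ℕ) (A : List ℕ) : List ℕ :=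
  if A.length ≤ N then A else
    A.filter fun v => !decide (keyN r f (findT r f cc (A.map fun v => v % hsh (r * cc) A))
      (v % hsh (r * cc) A) = g (bits ((List.range M).map (qb j (hsh (r * cc) A)
        (findT r f cc (A.map fun v => v % hsh (r * cc) A))))))

/-- One more bit. -/
def stepS (g : List Bool → ℕ) (qb : ℕ → ℕ → ℕ → ℕ → List Bool)
    (M N r : ℕ) (f : List Bool) (j : ℕ) (A : List ℕ) : List ℕ :=
  ((prS g qb M N r f (j + 1))^[2 * N] (A ++ A.map fun v => v + 2 ^ j)).take N

/-- The candidates for the first `j` bits. -/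
def listS (g : List Bool → ℕ) (qb : ℕ → ℕ → ℕ → ℕ → List Bool)
    (M N r : ℕ) (f : List Bool) : ℕ → List ℕ
  | 0 => [0]
  | j + 1 => stepS g qb M N r f j (listS g qb M N r f j)

section

variable {g : List Bool → ℕ} {qb : ℕ → ℕ → ℕ → ℕ → List Bool} {M N r : ℕ} {f : List Bool}

theorem prS_sublist (j : ℕ) (A : List ℕ) : (prS g qb M N r f j A).Sublist A := by
  unfold prS
  split_ifs
  · exact List.Sublist.refl _
  · exact List.filter_sublist

theorem prS_iter_sublist (j : ℕ) (A : List ℕ) : ∀ n, ((prS g qb M N r f j)^[n] A).Sublist A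
  | 0 => List.Sublist.refl _
  | n + 1 => by
    rw [Function.iterate_succ_apply']
    exact (prS_sublist _ _).trans (prS_iter_sublist j A n)

theorem listS_lt : ∀ (j : ℕ), ∀ v ∈ listS g qb M N r f j, v < 2 ^ j
  | 0, v, hv => by
    simp only [listS, List.mem_singleton] at hv
    simp [hv]
  | j + 1, v, hv => by
    rw [listS, stepS] at hv
    have h1 := (prS_iter_sublist _ _ _).subset (List.mem_of_mem_take hv)
    rw [List.mem_append, List.mem_map] at h1
    rw [pow_succ]
    rcases h1 with h | ⟨u, h, rfl⟩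
    · have := listS_lt j v h
      omega
    · have := listS_lt j u h
      omega

theorem nodup_listS : ∀ j : ℕ, (listS g qb M N r f j).Nodup
  | 0 => by simp [listS]
  | j + 1 => by
    rw [listS, stepS]
    exact (((nodup_ext (nodup_listS j) (listS_lt j)).sublist (prS_iter_sublist _ _ _))).sublist
      (List.take_sublist _ _)

theorem length_listS (hN : 0 < N) : ∀ j, (listS g qb M N r f j).length ≤ N
  | 0 => by simp [listS]; omega
  | j + 1 => by
    rw [listS, stepS, List.length_take]
    exact min_le_left _ _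

/-- Pruning makes long lists shorter. -/
theorem prS_length_lt {A : List ℕ} {j μ : ℕ} (hr : 0 < r) (hf : f.length = r) (hz : NoZD r f)
    (hA : A.Nodup) (hlt : ∀ v ∈ A, v < 2 ^ j) (hN : A.length ≤ 2 * N) (hN2 : N < A.length)
    (hj : j ≤ μ) (hl : 2 * (2 * N * (2 * N) * μ + 1 + 4) ^ 2 + 1 ≤ 2 ^ (r * cc))
    (hM : M ≤ 4 ^ r) (hNM : 16 ^ r ≤ N)
    (hg : ∀ q < 2 ^ (r * cc), ∀ t < 2 ^ (r * (2 * cc)),
      g (bits ((List.range M).map (qb j q t))) < M) :
    (prS g qb M N r f j A).length < A.length := by
  obtain ⟨h1, h2, h3⟩ := hsh_spec (l := r * cc) hlt hN (by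
    refine le_trans ?_ hl
    have : 2 * N * (2 * N) * j ≤ 2 * N * (2 * N) * μ := Nat.mul_le_mul_left _ hj
    gcongr)
  set q := hsh (r * cc) A with hq
  set us := A.map fun v => v % q with hus
  have hnd : us.Nodup := by
    rw [hus, List.nodup_map_iff_inj_on hA]
    exact h3
  have hult : ∀ u ∈ us, u < 2 ^ (r * cc) := by
    intro u hu
    obtain ⟨v, _, rfl⟩ := List.mem_map.1 hu
    exact (Nat.mod_lt _ h1).trans h2
  set t := findT r f cc us with ht
  have ht2 := findT_spec hr (c := cc) (by decide) hf hz hnd hult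
  have hE1 := hg q h2 t findT_lt
  set E := g (bits ((List.range M).map (qb j q t))) with hE
  have hcard : us.toFinset.card = A.length := by
    rw [List.toFinset_card_of_nodup hnd, hus, List.length_map]
  obtain ⟨T, hT, hTE⟩ := exists_valB (n := 2 * r) (V := E) (by
    refine lt_of_lt_of_le hE1 (hM.trans (le_of_eq ?_))
    rw [pow_mul]
    norm_num)
  obtain ⟨u, hu, hu2⟩ := hit (c := cc) (by decide) ht2 (by rw [hcard]; omega)
    (a := T.take r) (b := T.drop r) (by rw [List.length_take]; omega)
    (by rw [List.length_drop]; omega)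
  rw [List.mem_toFinset, hus, List.mem_map] at hu
  obtain ⟨v, hv, rfl⟩ := hu
  unfold prS
  rw [if_neg (by omega)]
  simp only [← hq, ← hus, ← ht, ← hE]
  refine List.length_filter_lt_length_iff_exists.2 ⟨v, hv, ?_⟩
  have h4 : keyN r f t (v % q) = E := by
    unfold key at hu2
    rw [Prod.mk.injEq] at hu2
    unfold keyN
    rw [hu2.1, hu2.2, List.take_append_drop, hTE]
  simp [h4]

theorem iter_lengthS {A : List ℕ} {j μ : ℕ} (hr : 0 < r) (hf : f.length = r) (hz : NoZD r f)
    (hA : A.Nodup) (hlt : ∀ v ∈ A, v < 2 ^ j) (hN : A.length ≤ 2 * N)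
    (hj : j ≤ μ) (hl : 2 * (2 * N * (2 * N) * μ + 1 + 4) ^ 2 + 1 ≤ 2 ^ (r * cc))
    (hM : M ≤ 4 ^ r) (hNM : 16 ^ r ≤ N)
    (hg : ∀ q < 2 ^ (r * cc), ∀ t < 2 ^ (r * (2 * cc)),
      g (bits ((List.range M).map (qb j q t))) < M) (n : ℕ) :
    ((prS g qb M N r f j)^[n] A).length ≤ N ∨ ((prS g qb M N r f j)^[n] A).length + n ≤ A.length := by
  induction n with
  | zero => exact Or.inr (by simp)
  | succ n ih =>
    rw [Function.iterate_succ_apply']
    set B := (prS g qb M N r f j)^[n] A with hB
    have hs : B.Sublist A := prS_iter_sublist _ _ _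
    have h1 : (prS g qb M N r f j B).length ≤ B.length := (prS_sublist j B).length_le
    by_cases h2 : B.length ≤ N
    · exact Or.inl (h1.trans h2)
    · rcases ih with ih | ih
      · exact absurd ih h2
      · right
        have h3 := prS_length_lt (g := g) (qb := qb) (A := B) hr hf hz (hA.sublist hs)
          (fun v hv => hlt v (hs.subset hv)) (hs.length_le.trans hN) (by omega) hj hl hM hNM hg
        omega

/-- The true value is among the candidates: the number `keyN` of the hash values of the true value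
is never the number given by `g`. -/
theorem mem_listS {V μ : ℕ}
    (hr : 0 < r) (hf : f.length = r) (hz : NoZD r f)
    (hl : 2 * (2 * N * (2 * N) * μ + 1 + 4) ^ 2 + 1 ≤ 2 ^ (r * cc))
    (hM : M ≤ 4 ^ r) (hNM : 16 ^ r ≤ N) (hN0 : 0 < N)
    (hg : ∀ j ≤ μ, ∀ q < 2 ^ (r * cc), ∀ t < 2 ^ (r * (2 * cc)),
      g (bits ((List.range M).map (qb j q t))) < M ∧
        keyN r f t (V % 2 ^ j % q) ≠ g (bits ((List.range M).map (qb j q t)))) :
    ∀ j ≤ μ, V % 2 ^ j ∈ listS g qb M N r f j
  | 0, _ => by simp [listS, Nat.mod_one]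
  | j + 1, hj => by
    have ih := mem_listS hr hf hz hl hM hNM hN0 hg j (by omega)
    set A := listS g qb M N r f j ++ (listS g qb M N r f j).map fun v => v + 2 ^ j with hA
    have hmem : V % 2 ^ (j + 1) ∈ A := by
      rw [hA, List.mem_append, List.mem_map]
      have h1 : V % 2 ^ (j + 1) = V % 2 ^ j + 2 ^ j * (V / 2 ^ j % 2) := Nat.mod_pow_succ
      rcases Nat.mod_two_eq_zero_or_one (V / 2 ^ j) with h2 | h2
      · left
        rw [h1, h2]
        simpa using ih
      · right
        exact ⟨_, ih, by rw [h1, h2]; ring⟩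
    have hnd : A.Nodup := nodup_ext (nodup_listS j) (listS_lt j)
    have hlen : A.length ≤ 2 * N := by
      have := length_listS (g := g) (qb := qb) (M := M) (r := r) (f := f) hN0 j
      rw [hA, List.length_append, List.length_map]
      omega
    have hlt : ∀ v ∈ A, v < 2 ^ (j + 1) := by
      intro v hv
      rw [hA, List.mem_append, List.mem_map] at hv
      rw [pow_succ]
      rcases hv with h | ⟨u, h, rfl⟩
      · have := listS_lt j v h
        omega
      · have := listS_lt j u h
        omega
    -- one step keeps the true value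
    have hkeep : ∀ B : List ℕ, V % 2 ^ (j + 1) ∈ B →
        V % 2 ^ (j + 1) ∈ prS g qb M N r f (j + 1) B := by
      intro B hB
      unfold prS
      split_ifs with hBN
      · exact hB
      · rw [List.mem_filter]
        refine ⟨hB, ?_⟩
        set q := hsh (r * cc) B with hq'
        set t := findT r f cc (B.map fun v => v % q) with ht
        have hqlt : q < 2 ^ (r * cc) := by
          rw [hq']
          unfold hsh
          cases h4 : (List.range (2 ^ (r * cc))).filter fun h => decide (0 < h) && B.all fun u =>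
            B.all fun v => decide (u = v) || !decide (u % h = v % h) with
          | nil => simp
          | cons a t' =>
            have h5 : a ∈ (List.range (2 ^ (r * cc))).filter fun h => decide (0 < h) && B.all
                fun u => B.all fun v => decide (u = v) || !decide (u % h = v % h) := by
              rw [h4]; exact List.mem_cons_self
            rw [List.mem_filter, List.mem_range] at h5
            simpa using h5.1
        obtain ⟨_, h6⟩ := hg (j + 1) hj q hqlt t findT_lt
        simpa using h6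
    have hiter : ∀ n, V % 2 ^ (j + 1) ∈ (prS g qb M N r f (j + 1))^[n] A := by
      intro n
      induction n with
      | zero => exact hmem
      | succ n ih =>
        rw [Function.iterate_succ_apply']
        exact hkeep _ ih
    rw [listS, stepS, ← hA]
    have h8 : ((prS g qb M N r f (j + 1))^[2 * N] A).length ≤ N := by
      rcases iter_lengthS (g := g) (qb := qb) hr hf hz hnd hlt hlen hj hl hM hNM
        (fun q hq t ht => (hg (j + 1) hj q hq t ht).1) (2 * N) with h | h
      · exact h
      · omega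
    rw [List.take_of_length_le h8]
    exact hiter _

end

end Pool.Agent.Helper45.LS
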